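import Mathlib

set_option autoImplicit false

namespace Pool.Agent.Results.MP_6e33d6_co.EmbedIrreducible

universe u v w

/-- The `k`-dimension of a poset `P`: the least `n` such that `P` order-embeds
(`x ≤ y ↔ f x ≤ f y`) into the product of `n` copies of the `k`-element chain. -/
noncomputable def kdim (k : ℕ) (P : Type u) [LE P] : ℕ :=
  sInf {n : ℕ | Nonempty (P ↪o (Fin n → Fin k))}

/-- `Q` is `k`-irreducible: removing any point lowers the `k`-dimension. -/
def KIrreducible (k : ℕ) (Q : Type u) [PartialOrder Q] : Prop :=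
  ∀ x : Q, kdim k {y : Q // y ≠ x} < kdim k Q

/-! ### Generalities on embeddings into cubes -/

theorem emb_mono {P : Type u} [PartialOrder P] {k n m : ℕ} (hnm : n ≤ m) (hk : 0 < k)
    (h : Nonempty (P ↪o (Fin n → Fin k))) : Nonempty (P ↪o (Fin m → Fin k)) := by
  obtain ⟨f⟩ := h
  refine ⟨OrderEmbedding.ofMapLEIff
    (fun x (i : Fin m) => if h : (i : ℕ) < n then f x ⟨i, h⟩ else ⟨0, hk⟩) ?_⟩
  intro a b
  constructor
  · intro hab
    rw [← f.le_iff_le]
    intro i
    have := hab ⟨i, lt_of_lt_of_le i.2 hnm⟩
    simpa using this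
  · intro hab i
    dsimp only
    split_ifs with h
    · exact (f.le_iff_le.2 hab) _
    · exact le_rfl

theorem kdim_le_of_emb {P : Type u} [PartialOrder P] {k n : ℕ}
    (h : Nonempty (P ↪o (Fin n → Fin k))) : kdim k P ≤ n :=
  Nat.sInf_le h

theorem emb_sets {P : Type u} [PartialOrder P] [Fintype P] {k : ℕ} (hk : 2 ≤ k) :
    Nonempty (P ↪o (Fin (Fintype.card P) → Fin k)) := by
  classical
  let e := Fintype.equivFin P
  refine ⟨OrderEmbedding.ofMapLEIff
    (fun x i => if e.symm i ≤ x then ⟨1, by omega⟩ else ⟨0, by omega⟩) ?_⟩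
  intro a b
  constructor
  · intro hab
    have := hab (e a)
    simp only [Equiv.symm_apply_apply, le_refl, if_true] at this
    by_contra hcon
    rw [if_neg hcon] at this
    exact absurd this (by simp [Fin.le_def])
  · intro hab i
    dsimp only
    split_ifs with h1 h2
    · exact le_rfl
    · exact absurd (h1.trans hab) h2
    · simp [Fin.le_def]
    · exact le_rfl

/-- If the finite poset `P` does not embed into `k^n` then its `k`-dimension exceeds `n`. -/
theorem lt_kdim_of_not_emb {P : Type u} [PartialOrder P] [Fintype P] {k n : ℕ} (hk : 2 ≤ k)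
    (h : ¬ Nonempty (P ↪o (Fin n → Fin k))) : n < kdim k P := by
  by_contra hcon
  push Not at hcon
  apply h
  have hne : {n : ℕ | Nonempty (P ↪o (Fin n → Fin k))}.Nonempty := ⟨_, emb_sets hk⟩
  exact emb_mono hcon (by omega) (Nat.sInf_mem hne)

/-! ### The ground poset -/

/-- The ground set: one isolated-from-`P` point `iso`, the points of `P`, two extra upper covers
`wit p b` of every point `p`, and on top of everything `k'` stacked antichains of size `3|P|`. -/
inductive X (P : Type u) (k' : ℕ) : Type u
  | iso : X P k'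
  | base (p : P) : X P k'
  | wit (p : P) (b : Bool) : X P k'
  | up (v : P × Option Bool) (c : Fin k') : X P k'

/-- The order relation of the ground set. -/
def X.le {P : Type u} [PartialOrder P] {k' : ℕ} : X P k' → X P k' → Prop
  | X.iso, X.iso => True
  | X.iso, X.up _ _ => True
  | X.base p, X.base q => p ≤ q
  | X.base p, X.wit q _ => p ≤ q
  | X.base _, X.up _ _ => True
  | X.wit p b, X.wit q c => p = q ∧ b = c
  | X.wit _ _, X.up _ _ => True
  | X.up v c, X.up w d => c < d ∨ (v = w ∧ c = d)
  | _, _ => False

instance {P : Type u} [PartialOrder P] {k' : ℕ} : PartialOrder (X P k') where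
  le := X.le
  le_refl a := by cases a <;> simp [X.le]
  le_trans a b c h1 h2 := by
    cases a <;> cases b <;> cases c <;> simp only [X.le] at h1 h2 ⊢ <;> try trivial
    all_goals first
      | exact h1.trans h2
      | (obtain ⟨rfl, rfl⟩ := h2; exact h1)
      | (rcases h1 with h1 | ⟨rfl, rfl⟩
         · rcases h2 with h2 | ⟨rfl, rfl⟩
           · exact Or.inl (h1.trans h2)
           · exact Or.inl h1
         · exact h2)
  le_antisymm a b h1 h2 := by
    cases a <;> cases b <;> simp only [X.le] at h1 h2 <;> try trivial
    · rw [le_antisymm h1 h2]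
    · rw [h1.1, h1.2]
    · rcases h1 with h1 | ⟨rfl, rfl⟩
      · rcases h2 with h2 | ⟨rfl, rfl⟩
        · exact absurd (h1.trans h2) (lt_irrefl _)
        · exact absurd h1 (lt_irrefl _)
      · rfl

theorem X.le_def {P : Type u} [PartialOrder P] {k' : ℕ} (a b : X P k') : a ≤ b ↔ X.le a b :=
  Iff.rfl

/-- The ground set as a sum type, used to count it. -/
def X.equivSum (P : Type u) (k' : ℕ) :
    X P k' ≃ Option (P × Option Bool) ⊕ ((P × Option Bool) × Fin k') where
  toFun
    | X.iso => Sum.inl none
    | X.base p => Sum.inl (some (p, none))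
    | X.wit p b => Sum.inl (some (p, some b))
    | X.up v c => Sum.inr (v, c)
  invFun
    | Sum.inl none => X.iso
    | Sum.inl (some (p, none)) => X.base p
    | Sum.inl (some (p, some b)) => X.wit p b
    | Sum.inr (v, c) => X.up v c
  left_inv a := by cases a <;> rfl
  right_inv a := by
    rcases a with (_ | ⟨p, _ | b⟩) | ⟨v, c⟩ <;> rfl

noncomputable instance {P : Type u} [Fintype P] {k' : ℕ} : Fintype (X P k') :=
  Fintype.ofEquiv _ (X.equivSum P k').symm

theorem X.card {P : Type u} [Fintype P] (k' : ℕ) :
    Fintype.card (X P k') = Fintype.card (P × Option Bool) * (k' + 1) + 1 := by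
  rw [Fintype.card_congr (X.equivSum P k')]
  simp only [Fintype.card_sum, Fintype.card_option, Fintype.card_prod, Fintype.card_fin]
  ring

/-- The family of principal down-sets and complements of principal up-sets. -/
def R (X : Type u) [PartialOrder X] : Set (Set X) :=
  {D | ∃ x, D = Set.Iic x ∨ D = (Set.Ici x)ᶜ}

theorem R_isLowerSet {X : Type u} [PartialOrder X] {D : Set X} (hD : D ∈ R X) :
    IsLowerSet D := by
  obtain ⟨x, rfl | rfl⟩ := hD
  · exact isLowerSet_Iic x
  · exact (isUpperSet_Ici x).compl

/-! ### Lower bound -/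

theorem card_le_of_emb {X : Type u} [PartialOrder X] [Fintype X] {k' n : ℕ}
    (h : Nonempty (R X ↪o (Fin n → Fin (k' + 2)))) :
    Fintype.card X ≤ n * (k' + 1) := by
  classical
  obtain ⟨f⟩ := h
  let j : X → R X := fun x => ⟨Set.Iic x, x, Or.inl rfl⟩
  let m : X → R X := fun x => ⟨(Set.Ici x)ᶜ, x, Or.inr rfl⟩
  have hjm : ∀ x y, ¬ x ≤ y → f (j y) ≤ f (m x) := by
    intro x y hxy
    rw [f.le_iff_le]
    intro z hz hxz
    exact hxy (le_trans hxz hz)
  have hnot : ∀ x, ∃ i, f (m x) i < f (j x) i := by
    intro x
    by_contra hcon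
    push Not at hcon
    have h1 : f (j x) ≤ f (m x) := hcon
    rw [f.le_iff_le] at h1
    have h2 : x ∈ (Set.Ici x)ᶜ := h1 (le_refl x)
    simp at h2
  choose c hc using hnot
  have hlt : ∀ x, (f (m x) (c x) : ℕ) < k' + 1 := by
    intro x
    have h1 := hc x
    have h2 := (f (j x) (c x)).2
    rw [Fin.lt_def] at h1
    omega
  let g : X → Fin n × Fin (k' + 1) := fun x => (c x, ⟨f (m x) (c x), hlt x⟩)
  have hg : Function.Injective g := by
    intro x y hxy
    simp only [g, Prod.mk.injEq, Fin.mk.injEq] at hxy
    obtain ⟨h1, h2⟩ := hxy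
    by_contra hne
    have key : ∀ x y, c x = c y → (f (m x) (c x) : ℕ) = f (m y) (c y) → ¬ x ≤ y → False := by
      intro x y h1 h2 hle
      have h3 := hjm x y hle (c y)
      have h4 := hc y
      rw [Fin.lt_def] at h4
      rw [Fin.le_def] at h3
      rw [h1] at h2
      omega
    by_cases hle : x ≤ y
    · exact key y x h1.symm h2.symm (fun h => hne (le_antisymm hle h))
    · exact key x y h1 h2 hle
  simpa using Fintype.card_le_of_injective g hg

/-! ### Upper bound after removing one point -/

section upper

variable {P : Type u} [PartialOrder P] {k' : ℕ}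

/-- The chain number `v` in the partition of `X P k'` minus `base p`. -/
noncomputable def tau (p : P) (v : P × Option Bool) : X P k' :=
  open Classical in
  if v = (p, none) then X.iso else
    match v with
    | (q, none) => X.base q
    | (q, some b) => X.wit q b

noncomputable def chain (p : P) (v : P × Option Bool) : Fin (k' + 1) → X P k' :=
  Fin.cases (tau p v) (fun c => X.up v c)

theorem tau_le_up (p : P) (v w : P × Option Bool) (c : Fin k') :
    (tau p v : X P k') ≤ X.up w c := by
  unfold tau
  split_ifs
  · simp [X.le_def, X.le]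
  · rcases v with ⟨q, _ | b⟩ <;> simp [X.le_def, X.le]

theorem chain_mono (p : P) (v : P × Option Bool) : Monotone (chain p v : Fin (k' + 1) → X P k') := by
  intro a b hab
  induction a using Fin.cases with
  | zero =>
    induction b using Fin.cases with
    | zero => exact le_rfl
    | succ b => exact tau_le_up p v v b
  | succ a =>
    induction b using Fin.cases with
    | zero => simp at hab
    | succ b =>
      rw [Fin.succ_le_succ_iff] at hab
      rcases hab.lt_or_eq with h | rfl
      · exact Or.inl h
      · exact le_rfl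

omit [PartialOrder P] in
theorem exists_chain (p : P) (x : X P k') (hx : x ≠ X.base p) :
    ∃ v a, chain p v a = x := by
  classical
  cases x with
  | iso => exact ⟨(p, none), 0, by simp [chain, tau]⟩
  | base q =>
    refine ⟨(q, none), 0, ?_⟩
    have : q ≠ p := fun h => hx (by rw [h])
    simp [chain, tau, this]
  | wit q b => exact ⟨(q, some b), 0, by simp [chain, tau]⟩
  | up v c => exact ⟨v, c.succ, by simp [chain]⟩

open Classical in
noncomputable def cnt (p : P) (D : Set (X P k')) (v : P × Option Bool) : ℕ :=
  (Finset.univ.filter (fun a : Fin (k' + 1) => chain p v a ∈ D)).card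

omit [PartialOrder P] in
theorem cnt_lt (p : P) (D : Set (X P k')) (v : P × Option Bool) : cnt p D v < k' + 2 := by
  classical
  have : cnt p D v ≤ (Finset.univ : Finset (Fin (k' + 1))).card := Finset.card_filter_le _ _
  simp at this
  omega

omit [PartialOrder P] in
theorem cnt_mono (p : P) {D E : Set (X P k')} (h : D ⊆ E) (v : P × Option Bool) :
    cnt p D v ≤ cnt p E v := by
  classical
  apply Finset.card_le_card
  intro a
  simp only [Finset.mem_filter, Finset.mem_univ, true_and]
  exact fun ha => h ha

theorem mem_of_cnt_le (p : P) {D E : Set (X P k')} (hD : IsLowerSet D) (hE : IsLowerSet E)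
    (v : P × Option Bool) (h : cnt p D v ≤ cnt p E v) (a : Fin (k' + 1))
    (ha : chain p v a ∈ D) : chain p v a ∈ E := by
  classical
  by_contra hcon
  have h1 : (a : ℕ) + 1 ≤ cnt p D v := by
    have : (Finset.Iic a) ⊆ Finset.univ.filter (fun a : Fin (k' + 1) => chain p v a ∈ D) := by
      intro b hb
      simp only [Finset.mem_filter, Finset.mem_univ, true_and]
      exact hD (chain_mono p v (Finset.mem_Iic.1 hb)) ha
    have h2 := Finset.card_le_card this
    rw [Fin.card_Iic] at h2
    exact h2
  have h2 : cnt p E v ≤ a := by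
    have : Finset.univ.filter (fun a : Fin (k' + 1) => chain p v a ∈ E) ⊆ Finset.Iio a := by
      intro b hb
      simp only [Finset.mem_filter, Finset.mem_univ, true_and] at hb
      rw [Finset.mem_Iio]
      by_contra hba
      push Not at hba
      exact hcon (hE (chain_mono p v hba) hb)
    have h2 := Finset.card_le_card this
    rw [Fin.card_Iio] at h2
    exact h2
  omega

/-- Removing `Iic (base p)` from the family `R (X P k')` allows an embedding into a smaller cube. -/
theorem emb_remove [Fintype P] (p : P) (S : Set (Set (X P k'))) (hS : S ⊆ R (X P k'))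
    (hp : Set.Iic (X.base p) ∉ S) :
    Nonempty (S ↪o (Fin (Fintype.card (P × Option Bool)) → Fin (k' + 2))) := by
  classical
  let e := Fintype.equivFin (P × Option Bool)
  refine ⟨OrderEmbedding.ofMapLEIff
    (fun D i => ⟨cnt p D.1 (e.symm i), cnt_lt _ _ _⟩) ?_⟩
  rintro ⟨D, hD⟩ ⟨E, hE⟩
  constructor
  · intro h
    have hDl := R_isLowerSet (hS hD)
    have hEl := R_isLowerSet (hS hE)
    have h1 : ∀ x ∈ D, x ≠ X.base p → x ∈ E := by
      intro x hx hxp
      obtain ⟨v, a, rfl⟩ := exists_chain p x hxp
      have h2 := h (e v)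
      simp only [Equiv.symm_apply_apply, Fin.mk_le_mk] at h2
      exact mem_of_cnt_le p hDl hEl v h2 a hx
    intro x hx
    by_cases hxp : x = X.base p
    · subst hxp
      by_contra hcon
      obtain ⟨y, rfl | rfl⟩ := hS hD
      · have hy : y ≠ X.base p := by
          rintro rfl
          exact hp hD
        exact hcon (hEl hx (h1 y (le_refl y) hy))
      · have key : ∀ b : Bool, y ≠ X.wit p b → False := by
          intro b hb
          apply hcon
          have hle : (X.base p : X P k') ≤ X.wit p b := le_refl p
          apply hEl hle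
          apply h1
          · simp only [Set.mem_compl_iff, Set.mem_Ici] at hx ⊢
            intro hyb
            apply hx
            cases y with
            | iso => exact hyb.elim
            | base q => exact hyb
            | wit q c =>
              obtain ⟨rfl, rfl⟩ := hyb
              exact absurd rfl hb
            | up v c => exact hyb.elim
          · simp
        by_cases hy : y = X.wit p true
        · exact key false (by rw [hy]; simp)
        · exact key true hy
    · exact h1 x hx hxp
  · intro h i
    exact cnt_mono p h _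

end upper

/-- **Main theorem.** Let `k ≥ 2`.  Every finite poset `P` embeds in a finite `k`-irreducible poset
`Q` with `dim_k P < dim_k Q`. -/
theorem result (k : ℕ) (hk : 2 ≤ k) (P : Type u) [PartialOrder P] [Finite P] :
    ∃ (Q : Type u) (_ : PartialOrder Q), Finite Q ∧ KIrreducible k Q ∧
      Nonempty (P ↪o Q) ∧ kdim k P < kdim k Q := by
  classical
  obtain ⟨k', rfl⟩ : ∃ k', k = k' + 2 := ⟨k - 2, by omega⟩
  have := Fintype.ofFinite P
  obtain ⟨N, hN⟩ : ∃ N, N = Fintype.card (P × Option Bool) := ⟨_, rfl⟩
  -- the non-embeddable sub-families of `R`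
  let bad : Set (Set (Set (X P k'))) :=
    {S | S ⊆ R (X P k') ∧ ¬ Nonempty (S ↪o (Fin N → Fin (k' + 2)))}
  have hbad : R (X P k') ∈ bad := by
    refine ⟨subset_rfl, fun h => ?_⟩
    have h1 := card_le_of_emb h
    rw [X.card, ← hN] at h1
    omega
  obtain ⟨S, hSbad, hSmin⟩ := (Set.toFinite bad).exists_minimal ⟨_, hbad⟩
  have hbase : ∀ p : P, Set.Iic (X.base p) ∈ S := by
    intro p
    by_contra hcon
    refine hSbad.2 ?_
    rw [hN]
    exact emb_remove p S hSbad.1 hcon
  have : Fintype S := Fintype.ofFinite S
  have hSdim : N < kdim (k' + 2) S := lt_kdim_of_not_emb hk hSbad.2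
  refine ⟨S, inferInstance, inferInstance, ?_, ?_, ?_⟩
  · intro x
    refine lt_of_le_of_lt (kdim_le_of_emb ?_) hSdim
    by_contra hcon
    have hT : (S \ {x.1}) ∈ bad := by
      refine ⟨fun D hD => hSbad.1 hD.1, fun h => hcon ?_⟩
      obtain ⟨f⟩ := h
      refine ⟨OrderEmbedding.ofMapLEIff
        (fun y : {y : S // y ≠ x} => f ⟨y.1.1, y.1.2, fun h => y.2 (Subtype.ext h)⟩) ?_⟩
      intro a b
      rw [f.le_iff_le]
      exact Iff.rfl
    have h1 := hSmin hT (fun D hD => hD.1)
    exact (h1 x.2).2 rfl
  · refine ⟨OrderEmbedding.ofMapLEIff (fun p => ⟨Set.Iic (X.base p), hbase p⟩) ?_⟩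
    intro a b
    constructor
    · intro h
      have h1 : (X.base a : X P k') ∈ Set.Iic (X.base b) := h (le_refl (X.base a : X P k'))
      exact h1
    · intro h
      have h1 : (X.base a : X P k') ≤ X.base b := h
      exact Set.Iic_subset_Iic.2 h1
  · refine lt_of_le_of_lt (kdim_le_of_emb (emb_sets hk)) (lt_of_le_of_lt ?_ hSdim)
    rw [hN, Fintype.card_prod]
    simp
    omega

end Pool.Agent.Results.MP_6e33d6_co.EmbedIrreducible
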